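import Pool.Agent.H93.CMC.MGen4

/-!
# Two closed CMC hypersurfaces enclosing each volume in manifolds with a CMC fibration

Let `(M, g)` be any closed Riemannian manifold and `θ : M → ℝ/ℤ` a smooth submersion whose fibres
have constant mean curvature (which may depend on the fibre). For every `v` with `0 < v < Vol(M)` at
least two different closed CMC hypersurfaces enclose the volume `v`. Definitions: file `MDefs`.

Proof: let `h(t)` be the mean curvature of the fibre over `t`; the divergence theorem for the unit
normal field of the fibres gives `∫_M h(θ) = 0`. The region between the fibres over `a` and `b(a)` of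
volume `v` has boundary of constant mean curvature iff `h(b(a)) = - h(a)`, iff the volume coordinate of
`a` is a critical point of a function on the circle; this function has two critical points which give
different hypersurfaces.
-/

open Set MeasureTheory

namespace Pool.Agent.Results.MP_8431e9_gt.CMCFibrations

open Pool.Agent.H93.CMC

theorem result {n : ℕ} {M : Type*} [TopologicalSpace M] [CompactSpace M] [T2Space M]
    [MeasurableSpace M] [BorelSpace M] (X : RiemMfd n M) (μ : Measure M) (hμ : IsVolume X μ)
    (θ : M → AddCircle (1 : ℝ)) (hθ : CMCFibration X θ) (v : ℝ) (hv0 : 0 < v)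
    (hv1 : v < μ.real univ) :
    ∃ S₁ S₂ : Set M, S₁ ≠ S₂ ∧ ClosedCMCM X μ v S₁ ∧ ClosedCMCM X μ v S₂ :=
  two_CMCM X μ hμ θ hθ v hv0 hv1

end Pool.Agent.Results.MP_8431e9_gt.CMCFibrations
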