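import Pool.Agent.H93.CMC.MI4

/-!
# Two closed CMC hypersurfaces enclosing each volume in manifolds with a CMC function

Let `(M, g)` be any closed Riemannian manifold of dimension `n + 1` and `u : M → [0,1]` a continuous
function which outside of the end sets `{u = 0}` and `{u = 1}` is smooth without critical points
and has level sets of constant mean curvature `h(t)`; the end sets have volume zero. For every `v`
with `0 < v < Vol(M)` at least two different closed CMC hypersurfaces enclose the volume `v`; if `v`
is exactly half the volume we assume that the end sets have `n`-dimensional Hausdorff measure zero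
(this excludes one-sided end hypersurfaces). Definitions: files `MDefs` and `MIDefs`.

Proof: if `v ≠ Vol(M)/2` take the boundaries of `{u < a}` and `{u > a'}` of volume `v`. If
`v = Vol(M)/2`, the second hypersurface is the boundary of `{s < u < b(s)}` with `h(b(s)) = - h(s)`:
if there were no such `s`, then `h` would be bounded from one side, cutoff functions near the end
sets, the divergence theorem and the lemma of Fatou would give `∫_M h(u) = 0`, and this contradicts
the constant sign of `h(s) + h(b(s))` (theorem of Rolle).
-/

open Set MeasureTheory

namespace Pool.Agent.Results.MP_8431e9_gt.CMCFunctions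

open Pool.Agent.H93.CMC

theorem result {n : ℕ} {M : Type*} [TopologicalSpace M] [CompactSpace M] [T2Space M]
    [MeasurableSpace M] [BorelSpace M] (X : RiemMfd n M) (μ : Measure M) (hμ : IsVolume X μ)
    (u : M → ℝ) (hu : CMCFunction X u) (v : ℝ) (hv0 : 0 < v) (hv1 : v < μ.real univ)
    (hS : v = μ.real univ / 2 → SmallEnds X u) :
    ∃ S₁ S₂ : Set M, S₁ ≠ S₂ ∧ ClosedCMCM X μ v S₁ ∧ ClosedCMCM X μ v S₂ :=
  two_CMCI X μ hμ u hu v hv0 hv1 hS

end Pool.Agent.Results.MP_8431e9_gt.CMCFunctions
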